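import Mathlib

set_option autoImplicit false
set_option linter.unusedSectionVars false

/-!
Let `g` be a finite-dimensional complex semisimple algebra with Cartan subalgebra `h`. We build the
map `Φ : Λ g → Λ h ⊗ A*` of the question (`Phi` below) and show that it kills the whole image of a
nonzero module map `f : V → Λ g` with `V` irreducible, as soon as `g` has more than `dim h` linearly
independent pairwise commuting elements. For `g = sl₄(ℂ)` the matrices `E₀₂, E₀₃, E₁₂, E₁₃` are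
such elements.
-/

namespace Pool.Agent.Results.MP_4ef82d_al.PhiNotInjective

open TensorProduct
open scoped IsMulCommutative

noncomputable section

section defs

variable (g : Type) [LieRing g] [LieAlgebra ℂ g]

/-- The grading of `Λ g` used for the signs in `Λ g ⊗ Λ g`. -/
abbrev gr : ℕ → Submodule ℂ (ExteriorAlgebra ℂ g) := fun i => ⋀[ℂ]^i g

/-- `x ↦ x ⊗ 1 + 1 ⊗ x`. -/
def coprodGι : g →ₗ[ℂ] gr g ᵍ⊗[ℂ] gr g :=
  (GradedTensorProduct.includeLeft (gr g) (gr g)).toLinearMap ∘ₗ ExteriorAlgebra.ι ℂ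
    + (GradedTensorProduct.includeRight (gr g) (gr g)).toLinearMap ∘ₗ ExteriorAlgebra.ι ℂ

variable {g}

theorem coprodι_apply (x : g) :
    coprodGι g x = ExteriorAlgebra.ι ℂ x ᵍ⊗ₜ[ℂ] (1 : ExteriorAlgebra ℂ g)
      + (1 : ExteriorAlgebra ℂ g) ᵍ⊗ₜ[ℂ] ExteriorAlgebra.ι ℂ x := rfl

theorem ι_mem (x : g) : ExteriorAlgebra.ι ℂ x ∈ gr g 1 := by
  change ExteriorAlgebra.ι ℂ x ∈ ⋀[ℂ]^1 g
  rw [ExteriorAlgebra.exteriorPower, pow_one]
  exact LinearMap.mem_range_self _ x

/-- The sign rule for generators. -/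
theorem anti (x y : g) :
    ((1 : ExteriorAlgebra ℂ g) ᵍ⊗ₜ[ℂ] ExteriorAlgebra.ι ℂ y : gr g ᵍ⊗[ℂ] gr g)
        * (ExteriorAlgebra.ι ℂ x ᵍ⊗ₜ[ℂ] (1 : ExteriorAlgebra ℂ g))
      = -((ExteriorAlgebra.ι ℂ x ᵍ⊗ₜ[ℂ] (1 : ExteriorAlgebra ℂ g) : gr g ᵍ⊗[ℂ] gr g)
        * ((1 : ExteriorAlgebra ℂ g) ᵍ⊗ₜ[ℂ] ExteriorAlgebra.ι ℂ y)) := by
  have h := GradedTensorProduct.tmul_coe_mul_coe_tmul (R := ℂ) (gr g) (gr g)
    (1 : ExteriorAlgebra ℂ g) (⟨ExteriorAlgebra.ι ℂ y, ι_mem y⟩ : gr g 1)
    (⟨ExteriorAlgebra.ι ℂ x, ι_mem x⟩ : gr g 1) (1 : ExteriorAlgebra ℂ g)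
  simp only [one_mul, mul_one, uzpow_one] at h
  rw [h, GradedTensorProduct.tmul_one_mul_one_tmul]
  simp

theorem coprodι_sq (x : g) : coprodGι g x * coprodGι g x = 0 := by
  rw [coprodι_apply, mul_add, add_mul, add_mul, anti x x]
  have h1 : (ExteriorAlgebra.ι ℂ x ᵍ⊗ₜ[ℂ] (1 : ExteriorAlgebra ℂ g) : gr g ᵍ⊗[ℂ] gr g)
      * (ExteriorAlgebra.ι ℂ x ᵍ⊗ₜ[ℂ] (1 : ExteriorAlgebra ℂ g)) = 0 := by
    have := (GradedTensorProduct.includeLeft (gr g) (gr g)).map_mul
      (ExteriorAlgebra.ι ℂ x) (ExteriorAlgebra.ι ℂ x)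
    rw [ExteriorAlgebra.ι_sq_zero, map_zero] at this
    exact this.symm
  have h2 : ((1 : ExteriorAlgebra ℂ g) ᵍ⊗ₜ[ℂ] ExteriorAlgebra.ι ℂ x : gr g ᵍ⊗[ℂ] gr g)
      * ((1 : ExteriorAlgebra ℂ g) ᵍ⊗ₜ[ℂ] ExteriorAlgebra.ι ℂ x) = 0 := by
    have := (GradedTensorProduct.includeRight (gr g) (gr g)).map_mul
      (ExteriorAlgebra.ι ℂ x) (ExteriorAlgebra.ι ℂ x)
    rw [ExteriorAlgebra.ι_sq_zero, map_zero] at this
    exact this.symm
  rw [h1, h2]
  abel

variable (g)

/-- The coproduct of `Λ g`: the algebra map `Λ g → Λ g ⊗ Λ g` (graded tensor product of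
algebras) with `x ↦ x ⊗ 1 + 1 ⊗ x`. -/
def coprodG : ExteriorAlgebra ℂ g →ₐ[ℂ] gr g ᵍ⊗[ℂ] gr g :=
  ExteriorAlgebra.lift ℂ ⟨coprodGι g, coprodι_sq⟩

/-- The operator `u ↦ u ⌊ κ(y, ·)` of right contraction by the Killing form of `y`. -/
def contr1 : g →ₗ[ℂ] Module.End ℂ (ExteriorAlgebra ℂ g) :=
  (CliffordAlgebra.contractRight (Q := (0 : QuadraticForm ℂ g))).flip ∘ₗ killingForm ℂ g

variable {g}

theorem contr1_mul_ι (y x : g) (u : ExteriorAlgebra ℂ g) :
    contr1 g y (u * ExteriorAlgebra.ι ℂ x)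
      = killingForm ℂ g y x • u - contr1 g y u * ExteriorAlgebra.ι ℂ x :=
  CliffordAlgebra.contractRight_mul_ι (Q := 0) (killingForm ℂ g y) x u

theorem contr1_algebraMap (y : g) (r : ℂ) :
    contr1 g y (algebraMap ℂ (ExteriorAlgebra ℂ g) r) = 0 :=
  CliffordAlgebra.contractRight_algebraMap 0 (killingForm ℂ g y) r

theorem contr1_sq (y : g) : contr1 g y * contr1 g y = 0 := by
  apply LinearMap.ext
  intro u
  exact CliffordAlgebra.contractRight_contractRight (Q := 0) (killingForm ℂ g y) u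

variable (g)

/-- `contr (y₁ ∧ ... ∧ y_m) u = ((u ⌊ κ(y_m)) ⌊ ...) ⌊ κ(y₁)`. -/
def contr : ExteriorAlgebra ℂ g →ₐ[ℂ] Module.End ℂ (ExteriorAlgebra ℂ g) :=
  ExteriorAlgebra.lift ℂ ⟨contr1 g, contr1_sq⟩

theorem contr1_contr1 (y : g) (u : ExteriorAlgebra ℂ g) :
    contr1 g y (contr1 g y u) = (0 : QuadraticForm ℂ g) y • u := by
  have h := LinearMap.congr_fun (contr1_sq y) u
  rw [_root_.zero_apply, zero_smul]
  exact h

/-- The pairing on `Λ g` induced by the Killing form: it is zero between different degrees, and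
`⟨x₁ ∧ ... ∧ x_m, y₁ ∧ ... ∧ y_m⟩ = det κ(x_i, y_j)`. It is defined by
`⟨u, y₁ ∧ ... ∧ y_m⟩ = ` the degree zero component of `contr1 y₁ (... (contr1 y_m u))`. -/
def pairing : ExteriorAlgebra ℂ g →ₗ[ℂ] ExteriorAlgebra ℂ g →ₗ[ℂ] ℂ :=
  (CliffordAlgebra.foldr (0 : QuadraticForm ℂ g) (contr1 g) (contr1_contr1 g)).compr₂
    (ExteriorAlgebra.algebraMapInv (R := ℂ)).toLinearMap

theorem pairing_apply (u w : ExteriorAlgebra ℂ g) :
    pairing g u w = ExteriorAlgebra.algebraMapInv (R := ℂ) (contr g w u) := rfl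

variable {g}

theorem contr_ι (y : g) : contr g (ExteriorAlgebra.ι ℂ y) = contr1 g y :=
  ExteriorAlgebra.lift_ι_apply ℂ _ _ y

theorem coprod_ι (x : g) : coprodG g (ExteriorAlgebra.ι ℂ x) = coprodGι g x :=
  ExteriorAlgebra.lift_ι_apply ℂ _ _ x

theorem pairing_mul_ι (u w : ExteriorAlgebra ℂ g) (y : g) :
    pairing g u (w * ExteriorAlgebra.ι ℂ y) = pairing g (contr1 g y u) w := by
  change ExteriorAlgebra.algebraMapInv (R := ℂ) (contr g (w * ExteriorAlgebra.ι ℂ y) u)
    = ExteriorAlgebra.algebraMapInv (R := ℂ) (contr g w (contr1 g y u))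
  rw [map_mul, contr_ι]
  rfl

theorem pairing_algebraMap (r s : ℂ) :
    pairing g (algebraMap ℂ _ r) (algebraMap ℂ _ s) = r * s := by
  change ExteriorAlgebra.algebraMapInv (R := ℂ) (contr g (algebraMap ℂ _ s) (algebraMap ℂ _ r))
    = r * s
  rw [AlgHom.commutes, Algebra.algebraMap_eq_smul_one, LinearMap.smul_apply, Module.End.one_apply,
    map_smul, AlgHom.commutes, mul_comm]
  rfl

/-- The pairing in degree two is the determinant of the Killing form. -/
theorem pairing_two (x x' y y' : g) :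
    pairing g (ExteriorAlgebra.ι ℂ x * ExteriorAlgebra.ι ℂ x')
        (ExteriorAlgebra.ι ℂ y * ExteriorAlgebra.ι ℂ y')
      = killingForm ℂ g x y * killingForm ℂ g x' y'
        - killingForm ℂ g x y' * killingForm ℂ g x' y := by
  have h1 : contr1 g y' (ExteriorAlgebra.ι ℂ x * ExteriorAlgebra.ι ℂ x')
      = killingForm ℂ g y' x' • ExteriorAlgebra.ι ℂ x
        - killingForm ℂ g y' x • ExteriorAlgebra.ι ℂ x' := by
    rw [contr1_mul_ι]
    have h := contr1_mul_ι y' x 1
    have h0 := contr1_algebraMap y' 1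
    rw [map_one] at h0
    rw [one_mul, h0, zero_mul, sub_zero] at h
    rw [h, smul_mul_assoc, one_mul]
  have h2 : ∀ z w : g, pairing g (ExteriorAlgebra.ι ℂ z) (ExteriorAlgebra.ι ℂ w)
      = killingForm ℂ g w z := by
    intro z w
    have h := contr1_mul_ι w z 1
    have h0 := contr1_algebraMap w 1
    rw [map_one] at h0
    rw [one_mul, h0, zero_mul, sub_zero] at h
    have h3 := pairing_mul_ι (ExteriorAlgebra.ι ℂ z) 1 w
    rw [one_mul, h, map_smul, LinearMap.smul_apply] at h3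
    have h4 := pairing_algebraMap (g := g) 1 1
    rw [map_one, mul_one] at h4
    rw [h3, h4, smul_eq_mul, mul_one]
  rw [pairing_mul_ι, h1, map_sub, LinearMap.sub_apply, map_smul, map_smul, LinearMap.smul_apply,
    LinearMap.smul_apply, h2, h2, smul_eq_mul, smul_eq_mul, LieModule.traceForm_comm ℂ g g y' x',
    LieModule.traceForm_comm ℂ g g y x, LieModule.traceForm_comm ℂ g g y' x,
    LieModule.traceForm_comm ℂ g g y x']
  ring

/-- `id ⊗ T` on `Λ g ⊗ Λ g`. -/
def idT (T : Module.End ℂ (ExteriorAlgebra ℂ g)) :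
    (gr g ᵍ⊗[ℂ] gr g) →ₗ[ℂ] (gr g ᵍ⊗[ℂ] gr g) :=
  (GradedTensorProduct.of ℂ (gr g) (gr g)).toLinearMap ∘ₗ
    TensorProduct.map LinearMap.id T ∘ₗ
      (GradedTensorProduct.of ℂ (gr g) (gr g)).symm.toLinearMap

theorem idT_tmul (T : Module.End ℂ (ExteriorAlgebra ℂ g)) (a b : ExteriorAlgebra ℂ g) :
    idT T (a ᵍ⊗ₜ[ℂ] b) = a ᵍ⊗ₜ[ℂ] (T b) := rfl

theorem idT_comp (T T' : Module.End ℂ (ExteriorAlgebra ℂ g)) (z : gr g ᵍ⊗[ℂ] gr g) :
    idT (T * T') z = idT T (idT T' z) := by
  have : idT (T * T') = idT T ∘ₗ idT T' := by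
    apply GradedTensorProduct.hom_ext
    apply TensorProduct.ext'
    intro a b
    rfl
  rw [this]; rfl

theorem idT_add (T T' : Module.End ℂ (ExteriorAlgebra ℂ g)) (z : gr g ᵍ⊗[ℂ] gr g) :
    idT (T + T') z = idT T z + idT T' z := by
  have : idT (T + T') = idT T + idT T' := by
    apply GradedTensorProduct.hom_ext
    apply TensorProduct.ext'
    intro a b
    change (a ᵍ⊗ₜ[ℂ] ((T + T') b) : gr g ᵍ⊗[ℂ] gr g) = a ᵍ⊗ₜ[ℂ] (T b) + a ᵍ⊗ₜ[ℂ] (T' b)
    rw [LinearMap.add_apply, GradedTensorProduct.tmul, TensorProduct.tmul_add, map_add]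
  rw [this]; rfl

theorem idT_smul_one (r : ℂ) (z : gr g ᵍ⊗[ℂ] gr g) :
    idT (r • (1 : Module.End ℂ (ExteriorAlgebra ℂ g))) z = r • z := by
  have : idT (g := g) (r • (1 : Module.End ℂ (ExteriorAlgebra ℂ g))) = r • LinearMap.id := by
    apply GradedTensorProduct.hom_ext
    apply TensorProduct.ext'
    intro a b
    change (a ᵍ⊗ₜ[ℂ] (r • b) : gr g ᵍ⊗[ℂ] gr g) = r • (a ᵍ⊗ₜ[ℂ] b)
    rw [GradedTensorProduct.tmul, TensorProduct.tmul_smul, map_smul]
  rw [this]; rfl

theorem tmul_mul_right (a b : ExteriorAlgebra ℂ g) (x : g) :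
    (a ᵍ⊗ₜ[ℂ] b : gr g ᵍ⊗[ℂ] gr g) * ((1 : ExteriorAlgebra ℂ g) ᵍ⊗ₜ[ℂ] ExteriorAlgebra.ι ℂ x)
      = a ᵍ⊗ₜ[ℂ] (b * ExteriorAlgebra.ι ℂ x) := by
  rw [← GradedTensorProduct.tmul_one_mul_one_tmul (gr g) (gr g) a b, mul_assoc]
  have := (GradedTensorProduct.includeRight (gr g) (gr g)).map_mul b (ExteriorAlgebra.ι ℂ x)
  have this' : ((1 : ExteriorAlgebra ℂ g) ᵍ⊗ₜ[ℂ] b : gr g ᵍ⊗[ℂ] gr g)
      * ((1 : ExteriorAlgebra ℂ g) ᵍ⊗ₜ[ℂ] ExteriorAlgebra.ι ℂ x)
      = (1 : ExteriorAlgebra ℂ g) ᵍ⊗ₜ[ℂ] (b * ExteriorAlgebra.ι ℂ x) := this.symm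
  rw [this', GradedTensorProduct.tmul_one_mul_one_tmul]

theorem tmul_mul_left (a b : ExteriorAlgebra ℂ g) (x : g) :
    (a ᵍ⊗ₜ[ℂ] b : gr g ᵍ⊗[ℂ] gr g) * (ExteriorAlgebra.ι ℂ x ᵍ⊗ₜ[ℂ] (1 : ExteriorAlgebra ℂ g))
      = (a * ExteriorAlgebra.ι ℂ x) ᵍ⊗ₜ[ℂ] (CliffordAlgebra.involute b) := by
  induction b using CliffordAlgebra.right_induction with
  | algebraMap r =>
    have := GradedTensorProduct.tmul_algebraMap_mul_coe_tmul (R := ℂ) (gr g) (gr g) a r
      (⟨ExteriorAlgebra.ι ℂ x, ι_mem x⟩ : gr g 1) (1 : ExteriorAlgebra ℂ g)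
    simp only [mul_one] at this
    rw [AlgHom.commutes]
    exact this
  | add b b' hb hb' =>
    rw [map_add, GradedTensorProduct.tmul, TensorProduct.tmul_add, map_add, add_mul,
      hb, hb', GradedTensorProduct.tmul, GradedTensorProduct.tmul, GradedTensorProduct.tmul,
      TensorProduct.tmul_add, map_add]
  | mul_ι m b hb =>
    have h1 := tmul_mul_right a b m
    change (a ᵍ⊗ₜ[ℂ] (b * ExteriorAlgebra.ι ℂ m) : gr g ᵍ⊗[ℂ] gr g) * _ = _
    rw [← h1, mul_assoc, anti, mul_neg, ← mul_assoc, hb, tmul_mul_right, map_mul,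
      CliffordAlgebra.involute_ι, mul_neg, GradedTensorProduct.tmul, GradedTensorProduct.tmul,
      TensorProduct.tmul_neg, map_neg]

theorem involute_contr1 (y : g) (u : ExteriorAlgebra ℂ g) :
    contr1 g y (CliffordAlgebra.involute u) = - CliffordAlgebra.involute (contr1 g y u) := by
  induction u using CliffordAlgebra.right_induction with
  | algebraMap r =>
    rw [AlgHom.commutes]
    have := contr1_algebraMap y r
    change contr1 g y (algebraMap ℂ (CliffordAlgebra 0) r)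
      = - CliffordAlgebra.involute (contr1 g y (algebraMap ℂ (CliffordAlgebra 0) r))
    change contr1 g y (algebraMap ℂ (CliffordAlgebra 0) r) = 0 at this
    rw [this]; simp
  | add b b' hb hb' => simp only [map_add, hb, hb']; abel
  | mul_ι m b hb =>
    rw [map_mul, CliffordAlgebra.involute_ι, mul_neg, map_neg]
    have h1 := contr1_mul_ι y m (CliffordAlgebra.involute b)
    have h2 := contr1_mul_ι y m b
    change contr1 g y (CliffordAlgebra.involute b * CliffordAlgebra.ι 0 m) = _ at h1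
    change contr1 g y (b * CliffordAlgebra.ι 0 m) = _ at h2
    rw [h1, h2, hb]
    rw [map_sub, map_smul, map_mul]
    change -(killingForm ℂ g y m • CliffordAlgebra.involute b -
      -CliffordAlgebra.involute (contr1 g y b) * CliffordAlgebra.ι 0 m) =
      -(killingForm ℂ g y m • CliffordAlgebra.involute b -
        CliffordAlgebra.involute (contr1 g y b) * CliffordAlgebra.involute (CliffordAlgebra.ι 0 m))
    rw [CliffordAlgebra.involute_ι]
    simp

theorem idT_contr1_mul (y x : g) (z : gr g ᵍ⊗[ℂ] gr g) :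
    idT (contr1 g y) (z * coprodGι g x)
      = killingForm ℂ g y x • z - idT (contr1 g y) z * coprodGι g x := by
  have key : ∀ a b : ExteriorAlgebra ℂ g, idT (contr1 g y) ((a ᵍ⊗ₜ[ℂ] b) * coprodGι g x)
      = killingForm ℂ g y x • (a ᵍ⊗ₜ[ℂ] b) - idT (contr1 g y) (a ᵍ⊗ₜ[ℂ] b) * coprodGι g x := by
    intro a b
    rw [coprodι_apply, mul_add, tmul_mul_left, tmul_mul_right, map_add, idT_tmul, idT_tmul,
      idT_tmul, mul_add, tmul_mul_left, tmul_mul_right, contr1_mul_ι, involute_contr1]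
    simp only [GradedTensorProduct.tmul, TensorProduct.tmul_neg, TensorProduct.tmul_sub,
      TensorProduct.tmul_smul, map_neg, map_sub, map_smul]
    abel
  obtain ⟨z, rfl⟩ := (GradedTensorProduct.of ℂ (gr g) (gr g)).surjective z
  induction z using TensorProduct.induction_on with
  | zero => simp
  | tmul a b => exact key a b
  | add z z' hz hz' =>
    rw [map_add, add_mul, map_add, hz, hz', map_add, add_mul, smul_add]
    abel

theorem coprod_contr1 (y : g) (u : ExteriorAlgebra ℂ g) :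
    coprodG g (contr1 g y u) = idT (contr1 g y) (coprodG g u) := by
  induction u using CliffordAlgebra.right_induction with
  | algebraMap r =>
    have h1 := contr1_algebraMap y r
    change contr1 g y (algebraMap ℂ (CliffordAlgebra 0) r) = 0 at h1
    rw [h1, map_zero]
    have h2 : coprodG g (algebraMap ℂ (CliffordAlgebra 0) r)
        = algebraMap ℂ (gr g ᵍ⊗[ℂ] gr g) r := AlgHom.commutes _ r
    rw [h2, GradedTensorProduct.algebraMap_def, idT_tmul]
    have h3 := contr1_algebraMap y 1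
    rw [map_one] at h3
    rw [h3]
    simp [GradedTensorProduct.tmul]
  | add b b' hb hb' => simp only [map_add, hb, hb']
  | mul_ι m b hb =>
    have h2 := contr1_mul_ι y m b
    change contr1 g y (b * CliffordAlgebra.ι 0 m) = _ at h2
    have h3 : coprodG g (b * CliffordAlgebra.ι 0 m) = coprodG g b * coprodGι g m := by
      rw [map_mul]; congr 1; exact coprod_ι m
    rw [h2, h3, idT_contr1_mul, map_sub, map_smul, map_mul, hb, coprod_ι]

theorem coprod_contr (w u : ExteriorAlgebra ℂ g) :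
    coprodG g (contr g w u) = idT (contr g w) (coprodG g u) := by
  induction w using ExteriorAlgebra.induction generalizing u with
  | algebraMap r =>
    rw [AlgHom.commutes, Algebra.algebraMap_eq_smul_one, idT_smul_one]
    simp
  | ι y => rw [contr_ι]; exact coprod_contr1 y u
  | mul w w' hw hw' => rw [map_mul, Module.End.mul_apply, hw, hw', ← idT_comp]
  | add w w' hw hw' => rw [map_add, LinearMap.add_apply, map_add, hw, hw', ← idT_add]

/-- `id ⊗ ψ` followed by the identification `Λ g ⊗ ℂ = Λ g`. -/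
def slice (ψ : ExteriorAlgebra ℂ g →ₗ[ℂ] ℂ) : (gr g ᵍ⊗[ℂ] gr g) →ₗ[ℂ] ExteriorAlgebra ℂ g :=
  (TensorProduct.rid ℂ (ExteriorAlgebra ℂ g)).toLinearMap ∘ₗ
    TensorProduct.map LinearMap.id ψ ∘ₗ
      (GradedTensorProduct.of ℂ (gr g) (gr g)).symm.toLinearMap

theorem slice_tmul (ψ : ExteriorAlgebra ℂ g →ₗ[ℂ] ℂ) (a b : ExteriorAlgebra ℂ g) :
    slice ψ (a ᵍ⊗ₜ[ℂ] b) = ψ b • a := by
  change (TensorProduct.rid ℂ (ExteriorAlgebra ℂ g)) (a ⊗ₜ ψ b) = _
  rw [TensorProduct.rid_tmul]

theorem slice_idT (ψ : ExteriorAlgebra ℂ g →ₗ[ℂ] ℂ) (T : Module.End ℂ (ExteriorAlgebra ℂ g))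
    (z : gr g ᵍ⊗[ℂ] gr g) : slice ψ (idT T z) = slice (ψ ∘ₗ T) z := by
  obtain ⟨z, rfl⟩ := (GradedTensorProduct.of ℂ (gr g) (gr g)).surjective z
  induction z using TensorProduct.induction_on with
  | zero => simp
  | tmul a b =>
    change slice ψ (idT T (a ᵍ⊗ₜ[ℂ] b)) = slice (ψ ∘ₗ T) (a ᵍ⊗ₜ[ℂ] b)
    rw [idT_tmul, slice_tmul, slice_tmul]; rfl
  | add z z' hz hz' => simp only [map_add, hz, hz']

theorem algebraMapInv_ι (x : g) :
    ExteriorAlgebra.algebraMapInv (R := ℂ) (ExteriorAlgebra.ι ℂ x) = 0 := by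
  simp [ExteriorAlgebra.algebraMapInv]

theorem algebraMapInv_involute (u : ExteriorAlgebra ℂ g) :
    ExteriorAlgebra.algebraMapInv (R := ℂ) (CliffordAlgebra.involute u)
      = ExteriorAlgebra.algebraMapInv (R := ℂ) u := by
  have : (ExteriorAlgebra.algebraMapInv (R := ℂ) (M := g)).comp
      (CliffordAlgebra.involute (Q := (0 : QuadraticForm ℂ g)))
      = ExteriorAlgebra.algebraMapInv (R := ℂ) := by
    apply ExteriorAlgebra.hom_ext
    apply LinearMap.ext
    intro x
    change ExteriorAlgebra.algebraMapInv (R := ℂ) (CliffordAlgebra.involute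
      (CliffordAlgebra.ι (0 : QuadraticForm ℂ g) x)) = ExteriorAlgebra.algebraMapInv (R := ℂ)
      (ExteriorAlgebra.ι ℂ x)
    rw [CliffordAlgebra.involute_ι, map_neg]
    have := algebraMapInv_ι x
    change ExteriorAlgebra.algebraMapInv (R := ℂ) (CliffordAlgebra.ι (0 : QuadraticForm ℂ g) x) = 0
      at this
    rw [this, neg_zero]
  exact DFunLike.congr_fun this u

theorem slice_counit (u : ExteriorAlgebra ℂ g) :
    slice (ExteriorAlgebra.algebraMapInv (R := ℂ)).toLinearMap (coprodG g u) = u := by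
  induction u using CliffordAlgebra.right_induction with
  | algebraMap r =>
    have h2 : coprodG g (algebraMap ℂ (CliffordAlgebra 0) r)
        = algebraMap ℂ (gr g ᵍ⊗[ℂ] gr g) r := AlgHom.commutes _ r
    rw [h2, GradedTensorProduct.algebraMap_def, slice_tmul]
    simp
  | add b b' hb hb' => simp only [map_add, hb, hb']
  | mul_ι m b hb =>
    have h3 : coprodG g (b * CliffordAlgebra.ι 0 m) = coprodG g b * coprodGι g m := by
      rw [map_mul]; congr 1; exact coprod_ι m
    have key : ∀ z : gr g ᵍ⊗[ℂ] gr g,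
        slice (ExteriorAlgebra.algebraMapInv (R := ℂ)).toLinearMap (z * coprodGι g m)
          = slice (ExteriorAlgebra.algebraMapInv (R := ℂ)).toLinearMap z
            * ExteriorAlgebra.ι ℂ m := by
      intro z
      obtain ⟨z, rfl⟩ := (GradedTensorProduct.of ℂ (gr g) (gr g)).surjective z
      induction z using TensorProduct.induction_on with
      | zero => simp
      | tmul a b =>
        change slice _ ((a ᵍ⊗ₜ[ℂ] b) * coprodGι g m) = slice _ (a ᵍ⊗ₜ[ℂ] b) * _
        rw [coprodι_apply, mul_add, tmul_mul_left, tmul_mul_right, map_add, slice_tmul,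
          slice_tmul, slice_tmul]
        simp only [AlgHom.toLinearMap_apply, map_mul, algebraMapInv_ι, mul_zero, zero_smul,
          add_zero, algebraMapInv_involute, smul_mul_assoc]
      | add z z' hz hz' => simp only [map_add, add_mul, hz, hz']
    rw [h3, key, hb]

/-- Slicing the coproduct by `⟨·, w⟩` is contraction by `w`. -/
theorem slice_pairing (w u : ExteriorAlgebra ℂ g) :
    slice ((pairing g).flip w) (coprodG g u) = contr g w u := by
  have h1 : (pairing g).flip w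
      = (ExteriorAlgebra.algebraMapInv (R := ℂ)).toLinearMap ∘ₗ contr g w := rfl
  rw [h1, ← slice_idT, ← coprod_contr, slice_counit]

/-- Right multiplication by `x ⊗ 1 + 1 ⊗ x` on the graded tensor product `Λ g ⊗ Λ g`, where the
product is `(a ⊗ b) (a' ⊗ b') = (-1)^(deg b * deg a') (a a') ⊗ (b b')`: it sends `a ⊗ b` to
`a x ⊗ (-1)^(deg b) b + a ⊗ b x`. -/
def mulPrim : g →ₗ[ℂ] (ExteriorAlgebra ℂ g ⊗[ℂ] ExteriorAlgebra ℂ g) →ₗ[ℂ]
    (ExteriorAlgebra ℂ g ⊗[ℂ] ExteriorAlgebra ℂ g) where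
  toFun x := TensorProduct.map (LinearMap.mulRight ℂ (ExteriorAlgebra.ι ℂ x))
      (CliffordAlgebra.involute (Q := (0 : QuadraticForm ℂ g))).toLinearMap
    + TensorProduct.map LinearMap.id (LinearMap.mulRight ℂ (ExteriorAlgebra.ι ℂ x))
  map_add' x y := by
    apply TensorProduct.ext'
    intro a b
    simp only [LinearMap.add_apply, TensorProduct.map_tmul, LinearMap.mulRight_apply, map_add,
      mul_add, TensorProduct.add_tmul, TensorProduct.tmul_add, LinearMap.id_coe, id_eq]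
    abel
  map_smul' c x := by
    apply TensorProduct.ext'
    intro a b
    simp only [LinearMap.add_apply, TensorProduct.map_tmul, LinearMap.mulRight_apply, map_smul,
      mul_smul_comm, ← TensorProduct.smul_tmul', TensorProduct.tmul_smul, LinearMap.id_coe, id_eq,
      RingHom.id_apply, LinearMap.smul_apply, smul_add]

theorem mulPrim_tmul (x : g) (a b : ExteriorAlgebra ℂ g) : mulPrim x (a ⊗ₜ[ℂ] b)
    = (a * ExteriorAlgebra.ι ℂ x) ⊗ₜ[ℂ] (CliffordAlgebra.involute b : ExteriorAlgebra ℂ g)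
      + a ⊗ₜ[ℂ] (b * ExteriorAlgebra.ι ℂ x) := rfl

theorem mulPrim_eq (x : g) (z : gr g ᵍ⊗[ℂ] gr g) :
    mulPrim x ((GradedTensorProduct.of ℂ (gr g) (gr g)).symm z)
      = (GradedTensorProduct.of ℂ (gr g) (gr g)).symm (z * coprodGι g x) := by
  obtain ⟨z, rfl⟩ := (GradedTensorProduct.of ℂ (gr g) (gr g)).surjective z
  induction z using TensorProduct.induction_on with
  | zero => simp
  | tmul a b =>
    change mulPrim x (a ⊗ₜ[ℂ] b)
      = (GradedTensorProduct.of ℂ (gr g) (gr g)).symm ((a ᵍ⊗ₜ[ℂ] b) * coprodGι g x)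
    rw [coprodι_apply, mul_add, tmul_mul_left, tmul_mul_right, mulPrim_tmul]
    rfl
  | add z z' hz hz' =>
    rw [map_add, map_add, map_add, hz, hz', add_mul, map_add]

theorem mulPrim_sq (x : g) (z : ExteriorAlgebra ℂ g ⊗[ℂ] ExteriorAlgebra ℂ g) :
    mulPrim x (mulPrim x z) = (0 : QuadraticForm ℂ g) x • z := by
  obtain ⟨z, rfl⟩ := (GradedTensorProduct.of ℂ (gr g) (gr g)).symm.surjective z
  rw [mulPrim_eq, mulPrim_eq, mul_assoc, coprodι_sq, mul_zero, map_zero, _root_.zero_apply,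
    zero_smul]

variable (g)

/-- The coproduct of `Λ g`, that is the algebra map to the graded tensor product `Λ g ⊗ Λ g` with
`x ↦ x ⊗ 1 + 1 ⊗ x`. It is written as the linear map with `coprod 1 = 1 ⊗ 1` and
`coprod (u * x) = coprod u * (x ⊗ 1 + 1 ⊗ x)`; see `coprod_spec`. -/
def coprod : ExteriorAlgebra ℂ g →ₗ[ℂ] ExteriorAlgebra ℂ g ⊗[ℂ] ExteriorAlgebra ℂ g :=
  CliffordAlgebra.foldl (0 : QuadraticForm ℂ g) mulPrim mulPrim_sq (1 ⊗ₜ[ℂ] 1)

variable {g}

theorem coprod_eq (u : ExteriorAlgebra ℂ g) :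
    coprod g u = (GradedTensorProduct.of ℂ (gr g) (gr g)).symm (coprodG g u) := by
  induction u using CliffordAlgebra.right_induction with
  | algebraMap r =>
    have h2 : coprodG g (algebraMap ℂ (CliffordAlgebra 0) r)
        = algebraMap ℂ (gr g ᵍ⊗[ℂ] gr g) r := AlgHom.commutes _ r
    have h1 : coprod g (algebraMap ℂ (CliffordAlgebra 0) r) = r • (1 ⊗ₜ[ℂ] 1) :=
      CliffordAlgebra.foldl_algebraMap _ _ _ _ _
    rw [h1, h2, GradedTensorProduct.algebraMap_def, Algebra.algebraMap_eq_smul_one,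
      TensorProduct.smul_tmul']
    rfl
  | add b b' hb hb' => simp only [map_add, hb, hb']
  | mul_ι m b hb =>
    have h3 : coprodG g (b * CliffordAlgebra.ι 0 m) = coprodG g b * coprodGι g m := by
      rw [map_mul]; congr 1; exact coprod_ι m
    have h4 : coprod g (b * CliffordAlgebra.ι 0 m) = mulPrim m (coprod g b) := by
      change CliffordAlgebra.foldl (0 : QuadraticForm ℂ g) mulPrim mulPrim_sq (1 ⊗ₜ[ℂ] 1)
        (b * CliffordAlgebra.ι 0 m) = _
      rw [CliffordAlgebra.foldl_mul, CliffordAlgebra.foldl_ι]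
      rfl
    rw [h3, h4, hb, mulPrim_eq]

/-- `coprod` is the algebra map `Λ g → Λ g ⊗ Λ g` (graded tensor product of algebras) with
`x ↦ x ⊗ 1 + 1 ⊗ x`. -/
theorem coprod_spec : ∃ F : ExteriorAlgebra ℂ g →ₐ[ℂ] gr g ᵍ⊗[ℂ] gr g,
    (∀ x : g, F (ExteriorAlgebra.ι ℂ x) = ExteriorAlgebra.ι ℂ x ᵍ⊗ₜ[ℂ] (1 : ExteriorAlgebra ℂ g)
      + (1 : ExteriorAlgebra ℂ g) ᵍ⊗ₜ[ℂ] ExteriorAlgebra.ι ℂ x) ∧
    ∀ u, coprod g u = (GradedTensorProduct.of ℂ (gr g) (gr g)).symm (F u) :=
  ⟨coprodG g, fun x => coprod_ι x, coprod_eq⟩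

end defs

section twist

variable (g : Type) [LieRing g] [LieAlgebra ℂ g] [FiniteDimensional ℂ g]
  [LieAlgebra.IsKilling ℂ g]

/-- The basis of `g` that is dual to `Module.finBasis ℂ g` for the Killing form. -/
def dualB : Module.Basis (Fin (Module.finrank ℂ g)) ℂ g :=
  LinearMap.BilinForm.dualBasis (killingForm ℂ g) (LieAlgebra.IsKilling.killingForm_nondegenerate ℂ g)
    (Module.finBasis ℂ g)

/-- The linear map `s : g → Λ² g`, `s x = (1/2) ∑ᵢ xᵢ ∧ [xⁱ, x]` for dual bases `(xᵢ)`, `(xⁱ)`. -/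
def sLin : g →ₗ[ℂ] ExteriorAlgebra ℂ g :=
  (1 / 2 : ℂ) • ∑ i, LinearMap.mulLeft ℂ (ExteriorAlgebra.ι ℂ (Module.finBasis ℂ g i)) ∘ₗ
    ExteriorAlgebra.ι ℂ ∘ₗ (LieAlgebra.ad ℂ g (dualB g i))

variable {g}

theorem sLin_apply (x : g) : sLin g x = (1 / 2 : ℂ) • ∑ i,
    ExteriorAlgebra.ι ℂ (Module.finBasis ℂ g i) * ExteriorAlgebra.ι ℂ ⁅dualB g i, x⁆ := by
  simp [sLin, LinearMap.sum_apply]

theorem sum_dual_left (v : g) :
    ∑ i, killingForm ℂ g (dualB g i) v • Module.finBasis ℂ g i = v := by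
  have h : ∀ i, killingForm ℂ g (dualB g i) v = (Module.finBasis ℂ g).repr v i := by
    intro i
    conv_lhs => rw [← (Module.finBasis ℂ g).sum_repr v]
    rw [map_sum]
    simp only [map_smul, smul_eq_mul]
    have h2 : ∀ j, killingForm ℂ g (dualB g i) (Module.finBasis ℂ g j) = if j = i then 1 else 0 :=
      fun j => LinearMap.BilinForm.apply_dualBasis_left
        (LieAlgebra.IsKilling.killingForm_nondegenerate ℂ g) (Module.finBasis ℂ g) i j
    simp [h2]
  simp only [h]
  exact (Module.finBasis ℂ g).sum_repr v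

theorem sum_dual_right (v : g) :
    ∑ i, killingForm ℂ g (Module.finBasis ℂ g i) v • dualB g i = v := by
  have h : ∀ i, killingForm ℂ g (Module.finBasis ℂ g i) v = (dualB g).repr v i := by
    intro i
    rw [LieModule.traceForm_comm]
    exact (LinearMap.BilinForm.dualBasis_repr_apply
      (LieAlgebra.IsKilling.killingForm_nondegenerate ℂ g) (Module.finBasis ℂ g) v i).symm
  simp only [h]
  exact (dualB g).sum_repr v

theorem contr1_contr1_mul_ι (z z' x : g) (u : ExteriorAlgebra ℂ g) :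
    contr1 g z (contr1 g z' (u * ExteriorAlgebra.ι ℂ x))
      = killingForm ℂ g z' x • contr1 g z u - killingForm ℂ g z x • contr1 g z' u
        + contr1 g z (contr1 g z' u) * ExteriorAlgebra.ι ℂ x := by
  rw [contr1_mul_ι, map_sub, map_smul, contr1_mul_ι]
  abel

theorem contr_sLin (y : g) (u : ExteriorAlgebra ℂ g) :
    contr g (sLin g y) u
      = (1 / 2 : ℂ) • ∑ i, contr1 g (Module.finBasis ℂ g i) (contr1 g ⁅dualB g i, y⁆ u) := by
  rw [sLin_apply, map_smul, map_sum, LinearMap.smul_apply, LinearMap.sum_apply]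
  congr 1
  refine Finset.sum_congr rfl fun i _ => ?_
  rw [map_mul, contr_ι, contr_ι]
  rfl

theorem contr_sLin_mul_ι (y x : g) (u : ExteriorAlgebra ℂ g) :
    contr g (sLin g y) (u * ExteriorAlgebra.ι ℂ x)
      = contr g (sLin g y) u * ExteriorAlgebra.ι ℂ x + contr1 g ⁅y, x⁆ u := by
  have h1 : ∑ i, killingForm ℂ g ⁅dualB g i, y⁆ x • contr1 g (Module.finBasis ℂ g i) u
      = contr1 g ⁅y, x⁆ u := by
    have : ∑ i, killingForm ℂ g ⁅dualB g i, y⁆ x • contr1 g (Module.finBasis ℂ g i) u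
        = contr1 g (∑ i, killingForm ℂ g (dualB g i) ⁅y, x⁆ • Module.finBasis ℂ g i) u := by
      rw [map_sum, LinearMap.sum_apply]
      refine Finset.sum_congr rfl fun i _ => ?_
      rw [map_smul, LinearMap.smul_apply, LieModule.traceForm_apply_lie_apply]
    rw [this, sum_dual_left]
  have h2 : ∑ i, killingForm ℂ g (Module.finBasis ℂ g i) x • contr1 g ⁅dualB g i, y⁆ u
      = contr1 g ⁅x, y⁆ u := by
    have : ∑ i, killingForm ℂ g (Module.finBasis ℂ g i) x • contr1 g ⁅dualB g i, y⁆ u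
        = contr1 g ⁅∑ i, killingForm ℂ g (Module.finBasis ℂ g i) x • dualB g i, y⁆ u := by
      rw [sum_lie, map_sum, LinearMap.sum_apply]
      refine Finset.sum_congr rfl fun i _ => ?_
      rw [smul_lie, map_smul, LinearMap.smul_apply]
    rw [this, sum_dual_right]
  rw [contr_sLin, contr_sLin]
  simp only [contr1_contr1_mul_ι]
  rw [Finset.sum_add_distrib, Finset.sum_sub_distrib, h1, h2, ← Finset.sum_mul, smul_add,
    smul_sub, smul_mul_assoc]
  have h3 : contr1 g ⁅x, y⁆ u = - contr1 g ⁅y, x⁆ u := by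
    rw [← lie_skew, map_neg, LinearMap.neg_apply]
  rw [h3, smul_neg, sub_neg_eq_add, ← add_smul]
  norm_num
  abel

theorem contr_sLin_algebraMap (y : g) (r : ℂ) :
    contr g (sLin g y) (algebraMap ℂ (ExteriorAlgebra ℂ g) r) = 0 := by
  rw [contr_sLin]
  simp [contr1_algebraMap]

theorem ι_swap (a b : g) : ExteriorAlgebra.ι ℂ a * ExteriorAlgebra.ι ℂ b
    = - (ExteriorAlgebra.ι ℂ b * ExteriorAlgebra.ι ℂ a) :=
  eq_neg_of_add_eq_zero_left (ExteriorAlgebra.ι_add_mul_swap a b)

theorem ιι_comm (a b : g) (u : ExteriorAlgebra ℂ g) :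
    ExteriorAlgebra.ι ℂ a * ExteriorAlgebra.ι ℂ b * u
      = u * (ExteriorAlgebra.ι ℂ a * ExteriorAlgebra.ι ℂ b) := by
  induction u using ExteriorAlgebra.induction with
  | algebraMap r => exact (Algebra.commutes r _).symm
  | ι c =>
    rw [mul_assoc, ι_swap b c, mul_neg, ← mul_assoc, ι_swap a c, neg_mul, neg_neg, mul_assoc]
  | mul u v hu hv => rw [← mul_assoc, hu, mul_assoc, hv, mul_assoc]
  | add u v hu hv => rw [mul_add, add_mul, hu, hv]

theorem sLin_comm (x : g) (u : ExteriorAlgebra ℂ g) : sLin g x * u = u * sLin g x := by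
  rw [sLin_apply, smul_mul_assoc, mul_smul_comm, Finset.sum_mul, Finset.mul_sum]
  congr 1
  exact Finset.sum_congr rfl fun i _ => ιι_comm _ _ u

variable (g)

/-- The (commutative) subalgebra of `Λ g` generated by the elements `s x`. -/
abbrev evenSub : Subalgebra ℂ (ExteriorAlgebra ℂ g) :=
  Algebra.adjoin ℂ (Set.range (sLin g))

instance : IsMulCommutative (evenSub g) :=
  Algebra.isMulCommutative_adjoin ℂ (by
    rintro _ ⟨x, rfl⟩ _ ⟨y, rfl⟩
    exact sLin_comm x _)

/-- The algebra homomorphism `s : S(g) → Λ g` extending `sLin`. -/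
def sAlg : SymmetricAlgebra ℂ g →ₐ[ℂ] ExteriorAlgebra ℂ g :=
  (evenSub g).val.comp (SymmetricAlgebra.lift
    ((sLin g).codRestrict (Subalgebra.toSubmodule (evenSub g))
      (fun x => Algebra.subset_adjoin ⟨x, rfl⟩)))

variable {g} {h : Type} [AddCommGroup h] [Module ℂ h]

/-- `τ : S(h) → Λ g`, the composite of `S(i) : S(h) → S(g)` with `s`, for the inclusion
`i : h → g`; that is the restriction of `s` to `S(h)`. -/
def tau (i : h →ₗ[ℂ] g) : SymmetricAlgebra ℂ h →ₐ[ℂ] ExteriorAlgebra ℂ g :=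
  (sAlg g).comp (SymmetricAlgebra.lift (SymmetricAlgebra.ι ℂ g ∘ₗ i))

theorem sAlg_ι (x : g) : sAlg g (SymmetricAlgebra.ι ℂ g x) = sLin g x := by
  simp only [sAlg, AlgHom.comp_apply, SymmetricAlgebra.lift_ι_apply]
  rfl

theorem tau_ι (i : h →ₗ[ℂ] g) (x : h) :
    tau i (SymmetricAlgebra.ι ℂ h x) = sLin g (i x) := by
  simp only [tau, AlgHom.comp_apply, SymmetricAlgebra.lift_ι_apply, LinearMap.comp_apply, sAlg_ι]

end twist

section action

variable {g : Type} [LieRing g] [LieAlgebra ℂ g]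

/-- `x ↦ x + [w, x] ε` into the dual numbers over `Λ g`. -/
def adExtι (w : g) : g →ₗ[ℂ] TrivSqZeroExt (ExteriorAlgebra ℂ g) (ExteriorAlgebra ℂ g) :=
  (TrivSqZeroExt.inlAlgHom ℂ (ExteriorAlgebra ℂ g) (ExteriorAlgebra ℂ g)).toLinearMap ∘ₗ
      ExteriorAlgebra.ι ℂ
    + (TrivSqZeroExt.inrHom (ExteriorAlgebra ℂ g) (ExteriorAlgebra ℂ g)).restrictScalars ℂ ∘ₗ
      ExteriorAlgebra.ι ℂ ∘ₗ (LieAlgebra.ad ℂ g w)

theorem adExtι_fst (w x : g) : (adExtι w x).fst = ExteriorAlgebra.ι ℂ x := by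
  simp [adExtι]

theorem adExtι_snd (w x : g) : (adExtι w x).snd = ExteriorAlgebra.ι ℂ ⁅w, x⁆ := by
  simp [adExtι]

theorem adExtι_sq (w x : g) : adExtι w x * adExtι w x = 0 := by
  apply TrivSqZeroExt.ext
  · rw [TrivSqZeroExt.fst_mul, adExtι_fst, ExteriorAlgebra.ι_sq_zero]; rfl
  · rw [TrivSqZeroExt.snd_mul, adExtι_fst, adExtι_snd]
    exact ExteriorAlgebra.ι_add_mul_swap x ⁅w, x⁆

/-- The algebra map `Λ g → Λ g[ε]`, `x ↦ x + [w, x] ε`. -/
def adExtAlg (w : g) : ExteriorAlgebra ℂ g →ₐ[ℂ]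
    TrivSqZeroExt (ExteriorAlgebra ℂ g) (ExteriorAlgebra ℂ g) :=
  ExteriorAlgebra.lift ℂ ⟨adExtι w, adExtι_sq w⟩

/-- The derivation of `Λ g` that extends `ad w : g → g`. -/
def adExt (w : g) : Module.End ℂ (ExteriorAlgebra ℂ g) :=
  (TrivSqZeroExt.sndHom (ExteriorAlgebra ℂ g) (ExteriorAlgebra ℂ g)).restrictScalars ℂ ∘ₗ
    (adExtAlg w).toLinearMap

theorem adExtAlg_ι (w x : g) : adExtAlg w (ExteriorAlgebra.ι ℂ x) = adExtι w x :=
  ExteriorAlgebra.lift_ι_apply ℂ _ _ x

theorem adExtAlg_fst (w : g) (u : ExteriorAlgebra ℂ g) : (adExtAlg w u).fst = u := by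
  have : (TrivSqZeroExt.fstHom ℂ (ExteriorAlgebra ℂ g) (ExteriorAlgebra ℂ g)).comp (adExtAlg w)
      = AlgHom.id ℂ _ := by
    apply ExteriorAlgebra.hom_ext
    apply LinearMap.ext
    intro x
    change (adExtAlg w (ExteriorAlgebra.ι ℂ x)).fst = _
    rw [adExtAlg_ι, adExtι_fst]; rfl
  exact DFunLike.congr_fun this u

theorem adExt_ι (w x : g) : adExt w (ExteriorAlgebra.ι ℂ x) = ExteriorAlgebra.ι ℂ ⁅w, x⁆ := by
  change (adExtAlg w (ExteriorAlgebra.ι ℂ x)).snd = _
  rw [adExtAlg_ι, adExtι_snd]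

theorem adExt_mul (w : g) (u v : ExteriorAlgebra ℂ g) :
    adExt w (u * v) = adExt w u * v + u * adExt w v := by
  change (adExtAlg w (u * v)).snd = (adExtAlg w u).snd * v + u * (adExtAlg w v).snd
  rw [map_mul, TrivSqZeroExt.snd_mul, adExtAlg_fst, adExtAlg_fst, add_comm]
  rfl

theorem adExt_algebraMap (w : g) (r : ℂ) : adExt w (algebraMap ℂ (ExteriorAlgebra ℂ g) r) = 0 := by
  change (adExtAlg w (algebraMap ℂ (ExteriorAlgebra ℂ g) r)).snd = 0
  rw [AlgHom.commutes]
  rfl

theorem adExt_add (w w' : g) : adExt (w + w') = adExt w + adExt w' := by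
  apply LinearMap.ext
  intro u
  rw [LinearMap.add_apply]
  induction u using ExteriorAlgebra.induction with
  | algebraMap r => simp [adExt_algebraMap]
  | ι x => simp [adExt_ι]
  | mul u v hu hv => rw [adExt_mul, adExt_mul, adExt_mul, hu, hv, add_mul, mul_add]; abel
  | add u v hu hv => rw [map_add, map_add, map_add, hu, hv]; abel

theorem adExt_smul (c : ℂ) (w : g) : adExt (c • w) = c • adExt w := by
  apply LinearMap.ext
  intro u
  rw [LinearMap.smul_apply]
  induction u using ExteriorAlgebra.induction with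
  | algebraMap r => simp [adExt_algebraMap]
  | ι x => simp [adExt_ι]
  | mul u v hu hv =>
    rw [adExt_mul, adExt_mul, hu, hv, smul_add, smul_mul_assoc, mul_smul_comm]
  | add u v hu hv => rw [map_add, map_add, hu, hv, smul_add]

theorem adExt_lie (w w' : g) (u : ExteriorAlgebra ℂ g) :
    adExt ⁅w, w'⁆ u = adExt w (adExt w' u) - adExt w' (adExt w u) := by
  induction u using ExteriorAlgebra.induction with
  | algebraMap r => simp [adExt_algebraMap]
  | ι x => simp only [adExt_ι]; rw [← map_sub, lie_lie]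
  | mul u v hu hv =>
    rw [adExt_mul, hu, hv, adExt_mul, adExt_mul, map_add, map_add, adExt_mul, adExt_mul,
      adExt_mul, adExt_mul, sub_mul, mul_sub]
    abel
  | add u v hu hv => rw [map_add, map_add, map_add, map_add, map_add, hu, hv]; abel

/-- The action of `g` on `Λ g` by derivations, extending the adjoint action on `g`. -/
instance : LieRingModule g (ExteriorAlgebra ℂ g) where
  bracket w u := adExt w u
  add_lie w w' u := by
    change adExt (w + w') u = adExt w u + adExt w' u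
    rw [adExt_add]; rfl
  lie_add w u v := map_add (adExt w) u v
  leibniz_lie w w' u := by
    change adExt w (adExt w' u) = adExt ⁅w, w'⁆ u + adExt w' (adExt w u)
    rw [adExt_lie]; abel

instance : LieModule ℂ g (ExteriorAlgebra ℂ g) where
  smul_lie c w u := by
    change adExt (c • w) u = c • adExt w u
    rw [adExt_smul]; rfl
  lie_smul c w u := map_smul (adExt w) c u

theorem lie_ι (w x : g) : ⁅w, ExteriorAlgebra.ι ℂ x⁆ = ExteriorAlgebra.ι ℂ ⁅w, x⁆ := adExt_ι w x

theorem lie_mul' (w : g) (u v : ExteriorAlgebra ℂ g) : ⁅w, u * v⁆ = ⁅w, u⁆ * v + u * ⁅w, v⁆ :=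
  adExt_mul w u v

theorem lie_algebraMap (w : g) (r : ℂ) : ⁅w, algebraMap ℂ (ExteriorAlgebra ℂ g) r⁆ = 0 :=
  adExt_algebraMap w r

theorem lie_mem_gr (n : ℕ) (w : g) (u : ExteriorAlgebra ℂ g) (hu : u ∈ gr g n) :
    ⁅w, u⁆ ∈ gr g n := by
  change u ∈ (LinearMap.range (ExteriorAlgebra.ι ℂ : g →ₗ[ℂ] _)) ^ n at hu
  change ⁅w, u⁆ ∈ (LinearMap.range (ExteriorAlgebra.ι ℂ : g →ₗ[ℂ] _)) ^ n
  induction hu using Submodule.pow_induction_on_left' with
  | algebraMap r => rw [lie_algebraMap]; exact Submodule.zero_mem _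
  | add x y i hx hy hx' hy' => rw [lie_add]; exact Submodule.add_mem _ hx' hy'
  | mem_mul m hm i x hx hx' =>
    obtain ⟨m, rfl⟩ := hm
    rw [lie_mul', lie_ι]
    rw [pow_succ'] 
    exact Submodule.add_mem _ (Submodule.mul_mem_mul (LinearMap.mem_range_self _ _) hx)
      (Submodule.mul_mem_mul (LinearMap.mem_range_self _ _) hx')

theorem lie_contr1 (w z : g) (u : ExteriorAlgebra ℂ g) :
    ⁅w, contr1 g z u⁆ = contr1 g ⁅w, z⁆ u + contr1 g z ⁅w, u⁆ := by
  induction u using CliffordAlgebra.right_induction with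
  | algebraMap r =>
    have h1 := contr1_algebraMap z r
    have h2 := contr1_algebraMap ⁅w, z⁆ r
    have h3 := lie_algebraMap w r
    change contr1 g z (algebraMap ℂ (CliffordAlgebra 0) r) = 0 at h1
    change contr1 g ⁅w, z⁆ (algebraMap ℂ (CliffordAlgebra 0) r) = 0 at h2
    change ⁅w, (algebraMap ℂ (CliffordAlgebra 0) r : ExteriorAlgebra ℂ g)⁆ = 0 at h3
    rw [h1, h2, h3, lie_zero, map_zero, add_zero]
  | add b b' hb hb' => simp only [map_add, lie_add, hb, hb']; abel
  | mul_ι m b hb =>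
    change ⁅w, contr1 g z (b * ExteriorAlgebra.ι ℂ m)⁆ = contr1 g ⁅w, z⁆ (b * ExteriorAlgebra.ι ℂ m)
      + contr1 g z ⁅w, (b * ExteriorAlgebra.ι ℂ m)⁆
    rw [contr1_mul_ι, contr1_mul_ι, lie_sub, lie_smul, lie_mul', lie_mul', lie_ι, map_add,
      contr1_mul_ι, contr1_mul_ι, hb, add_mul]
    have h : killingForm ℂ g z ⁅w, m⁆ = - killingForm ℂ g ⁅w, z⁆ m := by
      rw [← lie_skew w z, map_neg, LinearMap.neg_apply, neg_neg]
      exact (LieModule.traceForm_apply_lie_apply ℂ g g z w m).symm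
    rw [h, neg_smul]
    abel

end action

section stab

variable {g : Type} [LieRing g] [LieAlgebra ℂ g] [FiniteDimensional ℂ g]
  [LieAlgebra.IsKilling ℂ g] {h : Type} [AddCommGroup h] [Module ℂ h]

theorem lie_contr_sLin (w y : g) (u : ExteriorAlgebra ℂ g) :
    ⁅w, contr g (sLin g y) u⁆ = contr g (sLin g ⁅w, y⁆) u + contr g (sLin g y) ⁅w, u⁆ := by
  induction u using CliffordAlgebra.right_induction with
  | algebraMap r =>
    have h1 := contr_sLin_algebraMap y r
    have h2 := contr_sLin_algebraMap ⁅w, y⁆ r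
    have h3 := lie_algebraMap w r
    change contr g (sLin g y) (algebraMap ℂ (CliffordAlgebra 0) r) = 0 at h1
    change contr g (sLin g ⁅w, y⁆) (algebraMap ℂ (CliffordAlgebra 0) r) = 0 at h2
    change ⁅w, (algebraMap ℂ (CliffordAlgebra 0) r : ExteriorAlgebra ℂ g)⁆ = 0 at h3
    rw [h1, h2, h3, lie_zero, map_zero, add_zero]
  | add b b' hb hb' => simp only [map_add, lie_add, hb, hb']; abel
  | mul_ι m b hb =>
    change ⁅w, contr g (sLin g y) (b * ExteriorAlgebra.ι ℂ m)⁆
      = contr g (sLin g ⁅w, y⁆) (b * ExteriorAlgebra.ι ℂ m)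
      + contr g (sLin g y) ⁅w, (b * ExteriorAlgebra.ι ℂ m)⁆
    rw [contr_sLin_mul_ι, contr_sLin_mul_ι, lie_add, lie_mul', lie_mul', lie_ι, map_add,
      contr_sLin_mul_ι, contr_sLin_mul_ι, hb, add_mul, lie_contr1, leibniz_lie w y m, map_add,
      LinearMap.add_apply]
    abel

/-- The elements `u` of `Λⁿ g` all of whose contractions by the `s y` vanish. -/
def kerSub (n : ℕ) : LieSubmodule ℂ g (ExteriorAlgebra ℂ g) where
  carrier := {u | u ∈ gr g n ∧ ∀ y : g, contr g (sLin g y) u = 0}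
  add_mem' := by
    rintro a b ⟨ha, ha'⟩ ⟨hb, hb'⟩
    exact ⟨Submodule.add_mem _ ha hb, fun y => by rw [map_add, ha', hb', add_zero]⟩
  zero_mem' := ⟨Submodule.zero_mem _, fun y => map_zero _⟩
  smul_mem' := by
    rintro c a ⟨ha, ha'⟩
    exact ⟨Submodule.smul_mem _ _ ha, fun y => by rw [map_smul, ha', smul_zero]⟩
  lie_mem := by
    rintro w a ⟨ha, ha'⟩
    refine ⟨lie_mem_gr n w a ha, fun y => ?_⟩
    have h := lie_contr_sLin w y a
    rw [ha' y, ha' ⁅w, y⁆, lie_zero, zero_add] at h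
    exact h.symm

theorem mem_kerSub (n : ℕ) (u : ExteriorAlgebra ℂ g) :
    u ∈ kerSub (g := g) n ↔ u ∈ gr g n ∧ ∀ y : g, contr g (sLin g y) u = 0 := Iff.rfl

theorem contr_tau (i : h →ₗ[ℂ] g) (n : ℕ) (a : SymmetricAlgebra ℂ h)
    (u : ExteriorAlgebra ℂ g) (hu : u ∈ kerSub (g := g) n) :
    contr g (tau i a) u = SymmetricAlgebra.algebraMapInv (R := ℂ) a • u := by
  induction a using SymmetricAlgebra.induction with
  | algebraMap r =>
    rw [AlgHom.commutes, AlgHom.commutes, AlgHom.commutes, Algebra.algebraMap_eq_smul_one]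
    simp
  | ι x =>
    rw [tau_ι, hu.2, SymmetricAlgebra.algebraMapInv_ι, zero_smul]
  | mul a b ha hb =>
    rw [map_mul, map_mul, Module.End.mul_apply, hb, map_smul, ha, map_mul, smul_smul, mul_comm]
  | add a b ha hb => rw [map_add, map_add, LinearMap.add_apply, ha, hb, map_add, add_smul]

theorem involute_contr_sLin (y : g) (u : ExteriorAlgebra ℂ g) :
    contr g (sLin g y) (CliffordAlgebra.involute u)
      = CliffordAlgebra.involute (contr g (sLin g y) u) := by
  rw [contr_sLin, contr_sLin]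
  simp only [involute_contr1, map_neg, neg_neg]
  rw [map_smul, map_sum]

theorem involute_contr_tau (i : h →ₗ[ℂ] g) (a : SymmetricAlgebra ℂ h)
    (u : ExteriorAlgebra ℂ g) :
    contr g (tau i a) (CliffordAlgebra.involute u)
      = CliffordAlgebra.involute (contr g (tau i a) u) := by
  induction a using SymmetricAlgebra.induction generalizing u with
  | algebraMap r =>
    rw [AlgHom.commutes, AlgHom.commutes, Algebra.algebraMap_eq_smul_one, LinearMap.smul_apply,
      LinearMap.smul_apply, map_smul]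
    rfl
  | ι x => rw [tau_ι]; exact involute_contr_sLin _ u
  | mul a b ha hb =>
    rw [map_mul, map_mul, Module.End.mul_apply, Module.End.mul_apply, hb, ha]
  | add a b ha hb => rw [map_add, map_add, LinearMap.add_apply, LinearMap.add_apply, ha, hb,
      map_add]

end stab

section phi

variable {g : Type} [LieRing g] [LieAlgebra ℂ g] [FiniteDimensional ℂ g]
  [LieAlgebra.IsKilling ℂ g] {h : Type} [AddCommGroup h] [Module ℂ h]

variable (g) in
/-- The projection `π` of `Λ g` onto its even part. -/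
def evenProj : Module.End ℂ (ExteriorAlgebra ℂ g) :=
  (1 / 2 : ℂ) • (LinearMap.id +
    (CliffordAlgebra.involute (Q := (0 : QuadraticForm ℂ g))).toLinearMap)

variable {A : Type} [AddCommGroup A] [Module ℂ A]

/-- For a linear map `σ : A → Λ g` the map `Λ g → A*` that is transposed to `σ` with respect to the
pairing: `phi σ u a = ⟨u, σ a⟩`. -/
def phi (σ : A →ₗ[ℂ] ExteriorAlgebra ℂ g) : ExteriorAlgebra ℂ g →ₗ[ℂ] Module.Dual ℂ A :=
  (pairing g).compl₂ σ

/-- `Φ = (Λ(q) ⊗ φ) ∘ (id ⊗ π) ∘ Δ : Λ g → Λ h ⊗ A*` for a linear map `q : g → h` and the map `φ`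
that is transposed to `σ : A → Λ g`. -/
def Phi (q : g →ₗ[ℂ] h) (σ : A →ₗ[ℂ] ExteriorAlgebra ℂ g) :
    ExteriorAlgebra ℂ g →ₗ[ℂ] ExteriorAlgebra ℂ h ⊗[ℂ] Module.Dual ℂ A :=
  TensorProduct.map (ExteriorAlgebra.map q).toLinearMap (phi σ) ∘ₗ
    TensorProduct.map LinearMap.id (evenProj g) ∘ₗ coprod g

theorem tensor_dual_eq_zero {M A : Type} [AddCommGroup M] [Module ℂ M] [AddCommGroup A]
    [Module ℂ A] (z : M ⊗[ℂ] Module.Dual ℂ A)
    (h : ∀ a : A, TensorProduct.rid ℂ M
      (TensorProduct.map LinearMap.id (Module.Dual.eval ℂ A a) z) = 0) : z = 0 := by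
  classical
  have key : ∀ (z : M ⊗[ℂ] Module.Dual ℂ A) (i : _) (a : A),
      (TensorProduct.equivFinsuppOfBasisLeft (Module.Basis.ofVectorSpace ℂ M) z i) a
        = (Module.Basis.ofVectorSpace ℂ M).repr (TensorProduct.rid ℂ M
            (TensorProduct.map LinearMap.id (Module.Dual.eval ℂ A a) z)) i := by
    intro z i a
    induction z using TensorProduct.induction_on with
    | zero => simp
    | tmul m d =>
      rw [TensorProduct.equivFinsuppOfBasisLeft_apply_tmul_apply, TensorProduct.map_tmul,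
        TensorProduct.rid_tmul]
      simp [mul_comm]
    | add z z' hz hz' =>
      rw [map_add, Finsupp.add_apply, LinearMap.add_apply, hz, hz', map_add, map_add, map_add,
        Finsupp.add_apply]
  apply (TensorProduct.equivFinsuppOfBasisLeft (Module.Basis.ofVectorSpace ℂ M)).injective
  rw [map_zero]
  apply Finsupp.ext
  intro i
  apply LinearMap.ext
  intro a
  rw [key, h a, map_zero]
  rfl

theorem pairing_evenProj (i : h →ₗ[ℂ] g) (a : SymmetricAlgebra ℂ h) :
    (pairing g).flip (tau i a) ∘ₗ evenProj g = (pairing g).flip (tau i a) := by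
  apply LinearMap.ext
  intro u
  change ExteriorAlgebra.algebraMapInv (R := ℂ) (contr g (tau i a) ((1 / 2 : ℂ) •
    (u + CliffordAlgebra.involute u)))
    = ExteriorAlgebra.algebraMapInv (R := ℂ) (contr g (tau i a) u)
  rw [map_smul, map_add, involute_contr_tau, map_smul, map_add, algebraMapInv_involute,
    ← two_smul ℂ, smul_smul]
  norm_num

theorem map_eq_zero_of_mem [FiniteDimensional ℂ h] (q : g →ₗ[ℂ] h) (n : ℕ)
    (hn : Module.finrank ℂ h < n) (u : ExteriorAlgebra ℂ g) (hu : u ∈ gr g n) :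
    ExteriorAlgebra.map q u = 0 := by
  change u ∈ ⋀[ℂ]^n g at hu
  rw [← ExteriorAlgebra.ιMulti_span_fixedDegree] at hu
  induction hu using Submodule.span_induction with
  | mem x hx =>
    obtain ⟨m, rfl⟩ := hx
    rw [ExteriorAlgebra.map_apply_ιMulti]
    apply AlternatingMap.map_linearDependent
    intro h
    have := h.fintype_card_le_finrank
    simp only [Fintype.card_fin] at this
    omega
  | zero => exact map_zero _
  | add x y _ _ hx hy => rw [map_add, hx, hy, add_zero]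
  | smul a x _ hx => rw [map_smul, hx, smul_zero]

theorem Phi_eval (i : h →ₗ[ℂ] g) (q : g →ₗ[ℂ] h) (A : Submodule ℂ (SymmetricAlgebra ℂ h))
    (u : ExteriorAlgebra ℂ g) (a : A) :
    TensorProduct.rid ℂ _ (TensorProduct.map LinearMap.id (Module.Dual.eval ℂ A a)
        (Phi q ((tau i).toLinearMap ∘ₗ A.subtype) u))
      = ExteriorAlgebra.map q (contr g (tau i a) u) := by
  rw [← slice_pairing, ← pairing_evenProj]
  change TensorProduct.rid ℂ _ (TensorProduct.map LinearMap.id (Module.Dual.eval ℂ A a)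
        (TensorProduct.map (ExteriorAlgebra.map q).toLinearMap
          (phi ((tau i).toLinearMap ∘ₗ A.subtype))
          (TensorProduct.map LinearMap.id (evenProj g) (coprod g u)))) = _
  rw [coprod_eq]
  have key : ∀ z : ExteriorAlgebra ℂ g ⊗[ℂ] ExteriorAlgebra ℂ g,
      TensorProduct.rid ℂ _ (TensorProduct.map LinearMap.id (Module.Dual.eval ℂ A a)
        (TensorProduct.map (ExteriorAlgebra.map q).toLinearMap
          (phi ((tau i).toLinearMap ∘ₗ A.subtype))
          (TensorProduct.map LinearMap.id (evenProj g) z)))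
      = ExteriorAlgebra.map q (TensorProduct.rid ℂ _ (TensorProduct.map LinearMap.id
          ((pairing g).flip (tau i a) ∘ₗ evenProj g) z)) := by
    intro z
    induction z using TensorProduct.induction_on with
    | zero => simp
    | tmul x y =>
      simp only [TensorProduct.map_tmul, LinearMap.id_coe, id_eq, TensorProduct.rid_tmul,
        map_smul]
      rfl
    | add z z' hz hz' => simp only [map_add, hz, hz']
  exact key _

theorem Phi_eq_zero [FiniteDimensional ℂ h] (i : h →ₗ[ℂ] g) (q : g →ₗ[ℂ] h)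
    (A : Submodule ℂ (SymmetricAlgebra ℂ h)) (n : ℕ) (hn : Module.finrank ℂ h < n)
    (u : ExteriorAlgebra ℂ g) (hu : u ∈ kerSub (g := g) n) :
    Phi q ((tau i).toLinearMap ∘ₗ A.subtype) u = 0 := by
  apply tensor_dual_eq_zero
  intro a
  rw [Phi_eval, contr_tau i n a u hu, map_smul, map_eq_zero_of_mem q n hn u hu.1, smul_zero]

end phi

section wedge

variable {g : Type} [LieRing g] [LieAlgebra ℂ g] [FiniteDimensional ℂ g]
  [LieAlgebra.IsKilling ℂ g]

theorem contr1_lie_prod (y x : g) (l : List g) (hl : ∀ z ∈ l, ⁅x, z⁆ = 0) :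
    contr1 g ⁅y, x⁆ (l.map (ExteriorAlgebra.ι ℂ)).prod = 0 := by
  induction l using List.reverseRecOn with
  | nil =>
    rw [List.map_nil, List.prod_nil, ← map_one (algebraMap ℂ (ExteriorAlgebra ℂ g))]
    exact contr1_algebraMap _ _
  | append_singleton l z ih =>
    rw [List.map_append, List.prod_append, List.map_singleton, List.prod_singleton,
      contr1_mul_ι, ih (fun z hz => hl z (by simp [hz]))]
    have h : killingForm ℂ g ⁅y, x⁆ z = 0 := by
      rw [LieModule.traceForm_apply_lie_apply, hl z (by simp), map_zero]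
    rw [h]
    simp

theorem contr_sLin_prod (y : g) (l : List g) (hl : l.Pairwise (fun a b => ⁅b, a⁆ = 0)) :
    contr g (sLin g y) (l.map (ExteriorAlgebra.ι ℂ)).prod = 0 := by
  induction l using List.reverseRecOn with
  | nil =>
    rw [List.map_nil, List.prod_nil, ← map_one (algebraMap ℂ (ExteriorAlgebra ℂ g))]
    exact contr_sLin_algebraMap _ _
  | append_singleton l z ih =>
    rw [List.pairwise_append] at hl
    rw [List.map_append, List.prod_append, List.map_singleton, List.prod_singleton,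
      contr_sLin_mul_ι, ih hl.1, zero_mul, zero_add]
    exact contr1_lie_prod y z l (fun w hw => hl.2.2 w hw z (by simp))

theorem ιMulti_mem_kerSub (n : ℕ) (v : Fin n → g) (hv : ∀ i j, ⁅v i, v j⁆ = 0) :
    ExteriorAlgebra.ιMulti ℂ n v ∈ kerSub (g := g) n := by
  refine ⟨(exteriorPower.ιMulti ℂ n v).2, fun y => ?_⟩
  rw [ExteriorAlgebra.ιMulti_apply]
  have h : (List.ofFn fun i => ExteriorAlgebra.ι ℂ (v i))
      = (List.ofFn v).map (ExteriorAlgebra.ι ℂ) := by
    rw [List.map_ofFn]; rfl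
  rw [h]
  apply contr_sLin_prod
  rw [List.pairwise_ofFn]
  intro i j _
  exact hv j i

theorem ιMulti_ne_zero (n : ℕ) (v : Fin n → g) (hv : LinearIndependent ℂ v) :
    ExteriorAlgebra.ιMulti ℂ n v ≠ 0 := by
  have h := exteriorPower.ιMulti_family_linearIndependent_field (n := n) hv
  have h1 := h.ne_zero (Set.powersetCard.ofFinEmbEquiv (OrderIso.refl (Fin n)).toOrderEmbedding)
  intro h0
  apply h1
  apply Subtype.ext
  change ExteriorAlgebra.ιMulti ℂ n (v ∘ (Set.powersetCard.ofFinEmbEquiv.symm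
    (Set.powersetCard.ofFinEmbEquiv (OrderIso.refl (Fin n)).toOrderEmbedding))) = 0
  rw [Equiv.symm_apply_apply]
  exact h0

theorem exists_irreducible_submodule (M : Type) [AddCommGroup M] [Module ℂ M]
    [LieRingModule g M] [LieModule ℂ g M] [FiniteDimensional ℂ M] [Nontrivial M] :
    ∃ V : LieSubmodule ℂ g M, LieModule.IsIrreducible ℂ g V := by
  obtain h | ⟨V, hV, -⟩ := eq_bot_or_exists_atom_le (⊤ : LieSubmodule ℂ g M)
  · exact absurd h (by
      intro h
      obtain ⟨m, hm⟩ := exists_ne (0 : M)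
      apply hm
      have : m ∈ (⊤ : LieSubmodule ℂ g M) := LieSubmodule.mem_top m
      rw [h] at this
      exact (LieSubmodule.mem_bot m).1 this)
  · refine ⟨V, ?_⟩
    have : Nontrivial V := (LieSubmodule.nontrivial_iff_ne_bot ℂ g M).mpr hV.1
    apply LieModule.IsIrreducible.mk
    intro N hN
    have h1 : N.map V.incl ≤ V := by
      intro x hx
      obtain ⟨y, _, rfl⟩ := (LieSubmodule.mem_map _).1 hx
      exact y.2
    have h2 : N.map V.incl ≠ ⊥ := by
      intro h
      apply hN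
      rw [LieSubmodule.eq_bot_iff]
      intro x hx
      have h3 : V.incl x ∈ N.map V.incl := (LieSubmodule.mem_map _).2 ⟨x, hx, rfl⟩
      rw [h] at h3
      exact Subtype.ext ((LieSubmodule.mem_bot _).1 h3)
    have h3 : N.map V.incl = V := by
      rcases hV.le_iff.1 h1 with h | h
      · exact absurd h h2
      · exact h
    rw [eq_top_iff]
    intro x _
    have h4 : (x : M) ∈ N.map V.incl := by rw [h3]; exact x.2
    obtain ⟨y, hy, hxy⟩ := (LieSubmodule.mem_map _).1 h4
    have : y = x := Subtype.ext hxy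
    rwa [← this]

/-- `f : V → Λ g` is a map of `g`-modules, where `g` acts on `Λ g` by the derivations that extend
the adjoint action on `g`: for every `w` in `g` there is a derivation `D` of `Λ g` with
`D x = [w, x]` for `x` in `g` (it is unique), and `f (w v) = D (f v)` for all `v`. -/
def IsModuleMap {V : Type} [AddCommGroup V] [Module ℂ V] [LieRingModule g V]
    (f : V →ₗ[ℂ] ExteriorAlgebra ℂ g) : Prop :=
  ∀ w : g, ∃ D : Module.End ℂ (ExteriorAlgebra ℂ g),
    (∀ x : g, D (ExteriorAlgebra.ι ℂ x) = ExteriorAlgebra.ι ℂ ⁅w, x⁆) ∧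
    (∀ a b : ExteriorAlgebra ℂ g, D (a * b) = D a * b + a * D b) ∧ ∀ v : V, f ⁅w, v⁆ = D (f v)

/-- `Φ^V` is not injective, in a strong form: `V` is finite-dimensional and irreducible, and there is
a nonzero map of `g`-modules `f : V → Λ g` such that `Φ (f x) = 0` for all `x` in `V`. Here `Φ` is
formed with any linear map `q : g → H` and with the transpose `φ` of the restriction of
`τ : S(H) → Λ g` to any subspace `A` of `S(H)`. -/
structure NotInjective (g : Type) [LieRing g] [LieAlgebra ℂ g] [FiniteDimensional ℂ g]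
    [LieAlgebra.IsKilling ℂ g] (H : LieSubalgebra ℂ g) (V : Type) [AddCommGroup V] [Module ℂ V]
    [LieRingModule g V] [LieModule ℂ g V] : Prop where
  finite : FiniteDimensional ℂ V
  irreducible : LieModule.IsIrreducible ℂ g V
  exists_map : ∃ f : V →ₗ[ℂ] ExteriorAlgebra ℂ g, f ≠ 0 ∧ IsModuleMap (g := g) f ∧
    ∀ (q : g →ₗ[ℂ] H) (A : Submodule ℂ (SymmetricAlgebra ℂ H)) (x : V),
      Phi q ((tau H.toSubmodule.subtype).toLinearMap ∘ₗ A.subtype) (f x) = 0

/-- If `g` has more than `dim H` linearly independent pairwise commuting elements, then there are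
an irreducible module `V` and a nonzero module map `f : V → Λ g` with `Φ ∘ f = 0`. -/
theorem exists_killed (H : LieSubalgebra ℂ g) (n : ℕ) (hn : Module.finrank ℂ H < n)
    (v : Fin n → g) (hv : LinearIndependent ℂ v) (hc : ∀ i j, ⁅v i, v j⁆ = 0) :
    ∃ (V : Type) (_ : AddCommGroup V) (_ : Module ℂ V) (_ : LieRingModule g V)
      (_ : LieModule ℂ g V), NotInjective g H V := by
  have i1 : FiniteDimensional ℂ (kerSub (g := g) n) := by
    have h : ((kerSub (g := g) n).toSubmodule) ≤ gr g n := fun u hu => hu.1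
    exact Submodule.finiteDimensional_of_le h
  have i2 : Nontrivial (kerSub (g := g) n) :=
    ⟨⟨⟨ExteriorAlgebra.ιMulti ℂ n v, ιMulti_mem_kerSub n v hc⟩, 0, fun h =>
      ιMulti_ne_zero n v hv (congrArg Subtype.val h)⟩⟩
  obtain ⟨V, hV⟩ := exists_irreducible_submodule (g := g) (kerSub (g := g) n)
  have i3 : Nontrivial V := LieModule.nontrivial_of_isIrreducible ℂ g V
  refine ⟨V, inferInstance, inferInstance, inferInstance, inferInstance,
    ⟨inferInstance, hV, (kerSub (g := g) n).toSubmodule.subtype ∘ₗ V.toSubmodule.subtype,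
      ?_, ?_, ?_⟩⟩
  · intro h
    obtain ⟨x, hx⟩ := exists_ne (0 : V)
    apply hx
    have h1 : ((x : kerSub (g := g) n) : ExteriorAlgebra ℂ g) = 0 := DFunLike.congr_fun h x
    exact Subtype.ext (Subtype.ext h1)
  · intro w
    exact ⟨adExt w, adExt_ι w, adExt_mul w, fun v => rfl⟩
  · intro q A x
    exact Phi_eq_zero _ q A n hn _ (x : kerSub (g := g) n).2

end wedge

section sl

open LieAlgebra LieAlgebra.SpecialLinear

attribute [local instance 100] LieRing.ofAssociativeRing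

/-- The Lie algebra `sl₄(ℂ)`. -/
abbrev sl4 : Type := sl (Fin 4) ℂ

theorem trace_val (x : sl4) : Matrix.trace x.val = 0 := x.2

theorem sl4_bracket (A B : sl4) : ⁅A, B⁆.val = A.val * B.val - B.val * A.val := rfl

/-- The subalgebra of diagonal matrices in `sl₄(ℂ)`. -/
def diagH : LieSubalgebra ℂ sl4 where
  carrier := {x | ∀ i j, i ≠ j → x.val i j = 0}
  add_mem' := by
    intro a b ha hb i j hij
    change a.val i j + b.val i j = 0
    rw [ha i j hij, hb i j hij, add_zero]
  zero_mem' := fun i j _ => rfl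
  smul_mem' := by
    intro c a ha i j hij
    change c * a.val i j = 0
    rw [ha i j hij, mul_zero]
  lie_mem' := by
    intro a b ha hb i j hij
    rw [sl4_bracket]
    change (a.val * b.val) i j - (b.val * a.val) i j = 0
    have h1 : ∀ c d : sl4, (∀ i j, i ≠ j → c.val i j = 0) → (∀ i j, i ≠ j → d.val i j = 0) →
        (c.val * d.val) i j = 0 := by
      intro c d hc hd
      rw [Matrix.mul_apply]
      apply Finset.sum_eq_zero
      intro k _
      by_cases hik : i = k
      · subst hik; rw [hd i j hij, mul_zero]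
      · rw [hc i k hik, zero_mul]
    rw [h1 a b ha hb, h1 b a hb ha, sub_zero]

theorem mem_diagH (x : sl4) : x ∈ diagH ↔ ∀ i j, i ≠ j → x.val i j = 0 := Iff.rfl

theorem lie_apply_diag (x h : sl4) (hh : h ∈ diagH) (i j : Fin 4) :
    ⁅x, h⁆.val i j = x.val i j * (h.val j j - h.val i i) := by
  rw [sl4_bracket]
  change (x.val * h.val) i j - (h.val * x.val) i j = _
  rw [Matrix.mul_apply, Matrix.mul_apply, Finset.sum_eq_single j, Finset.sum_eq_single i]
  · ring
  · intro k _ hk; rw [hh i k (Ne.symm hk), zero_mul]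
  · simp
  · intro k _ hk; rw [hh k j hk, mul_zero]
  · simp

/-- The diagonal matrix `diag(3, 1, -1, -3)`. -/
def regEl : sl4 := ⟨Matrix.diagonal ![3, 1, -1, -3], by
  change Matrix.trace (Matrix.diagonal ![(3 : ℂ), 1, -1, -3]) = 0
  rw [Matrix.trace_diagonal]
  simp [Fin.sum_univ_four]⟩

theorem regEl_mem : regEl ∈ diagH := fun _ _ hij => Matrix.diagonal_apply_ne _ hij

theorem regEl_sub (i j : Fin 4) (hij : i ≠ j) : regEl.val j j - regEl.val i i ≠ 0 := by
  change Matrix.diagonal ![3, 1, -1, -3] j j - Matrix.diagonal ![3, 1, -1, -3] i i ≠ (0 : ℂ)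
  rw [Matrix.diagonal_apply_eq, Matrix.diagonal_apply_eq]
  fin_cases i <;> fin_cases j <;> first | exact absurd rfl hij | (simp; try norm_num)

instance : IsLieAbelian diagH where
  trivial x y := by
    apply Subtype.ext
    apply Subtype.ext
    apply Matrix.ext
    intro i j
    change ⁅(x : sl4), (y : sl4)⁆.val i j = 0
    rw [lie_apply_diag x y y.2]
    by_cases hij : i = j
    · subst hij; ring
    · rw [x.2 i j hij, zero_mul]

instance diagH_isCartan : diagH.IsCartanSubalgebra where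
  nilpotent := inferInstance
  self_normalizing := by
    apply le_antisymm _ diagH.le_normalizer
    intro x hx
    rw [LieSubalgebra.mem_normalizer_iff] at hx
    intro i j hij
    have h1 := hx regEl regEl_mem i j hij
    rw [lie_apply_diag x regEl regEl_mem] at h1
    exact (mul_eq_zero.1 h1).resolve_right (regEl_sub i j hij)

/-- The first three diagonal entries. -/
def diagCoords : diagH →ₗ[ℂ] (Fin 3 → ℂ) where
  toFun x := fun i => (x : sl4).val (Fin.castSucc i) (Fin.castSucc i)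
  map_add' _ _ := rfl
  map_smul' _ _ := rfl

theorem diagCoords_injective : Function.Injective diagCoords := by
  rw [← LinearMap.ker_eq_bot, LinearMap.ker_eq_bot']
  intro x hx
  have h0 : (x : sl4).val 0 0 = 0 := congrFun hx 0
  have h1 : (x : sl4).val 1 1 = 0 := congrFun hx 1
  have h2 : (x : sl4).val 2 2 = 0 := congrFun hx 2
  have h3 : (x : sl4).val 3 3 = 0 := by
    have := trace_val (x : sl4)
    rw [Matrix.trace, Fin.sum_univ_four] at this
    simp only [Matrix.diag_apply] at this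
    rw [h0, h1, h2] at this
    simpa using this
  apply Subtype.ext
  apply Subtype.ext
  apply Matrix.ext
  intro i j
  by_cases hij : i = j
  · subst hij
    fin_cases i
    · exact h0
    · exact h1
    · exact h2
    · exact h3
  · exact x.2 i j hij

theorem finrank_diagH : Module.finrank ℂ diagH < 4 := by
  have := LinearMap.finrank_le_finrank_of_injective diagCoords_injective
  rw [Module.finrank_fin_fun] at this
  omega

/-- The commuting matrices `E₀₂, E₀₃, E₁₂, E₁₃`. -/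
def comm4 : Fin 4 → sl4 :=
  ![single 0 2 (by decide) 1, single 0 3 (by decide) 1, single 1 2 (by decide) 1,
    single 1 3 (by decide) 1]

theorem comm4_lie (i j : Fin 4) : ⁅comm4 i, comm4 j⁆ = 0 := by
  apply Subtype.ext
  rw [sl4_bracket]
  fin_cases i <;> fin_cases j <;> simp [comm4]

theorem comm4_linearIndependent : LinearIndependent ℂ comm4 := by
  rw [Fintype.linearIndependent_iff]
  intro c hc
  have h1 : ∀ a b : Fin 4, (∑ i, c i • comm4 i).val a b = 0 := by
    intro a b; rw [hc]; rfl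
  have h2 : ∀ a b : Fin 4, (∑ i, c i • comm4 i).val a b
      = c 0 * (comm4 0).val a b + c 1 * (comm4 1).val a b + c 2 * (comm4 2).val a b
        + c 3 * (comm4 3).val a b := by
    intro a b
    rw [Fin.sum_univ_four]
    rfl
  have e0 := h1 0 2
  have e1 := h1 0 3
  have e2 := h1 1 2
  have e3 := h1 1 3
  rw [h2] at e0 e1 e2 e3
  simp [comm4] at e0 e1 e2 e3
  intro i
  fin_cases i
  · exact e0
  · exact e1
  · exact e2
  · exact e3

theorem lie_vec (x : sl4) (v : Fin 4 → ℂ) : ⁅x, v⁆ = x.val.mulVec v := rfl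

instance sl4_irred : LieModule.IsIrreducible ℂ sl4 (Fin 4 → ℂ) := by
  apply LieModule.IsIrreducible.mk
  intro N hN
  have key : ∀ (v : Fin 4 → ℂ) (i j : Fin 4) (hij : i ≠ j), v ∈ N → v j ≠ 0 →
      Pi.single i (1 : ℂ) ∈ N := by
    intro v i j hij hv hvj
    have h1 := N.lie_mem (x := single i j hij (v j)⁻¹) hv
    rw [lie_vec, val_single] at h1
    have h2 : (Matrix.single i j (v j)⁻¹).mulVec v = Pi.single i (1 : ℂ) := by
      ext k
      rw [Matrix.mulVec, dotProduct, Finset.sum_eq_single j]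
      · rw [Matrix.single_apply, Pi.single_apply]
        by_cases hk : i = k
        · subst hk; simp [hvj]
        · simp [hk, Ne.symm hk]
      · intro l _ hl
        rw [Matrix.single_apply]
        simp [Ne.symm hl]
      · simp
    rwa [h2] at h1
  obtain ⟨v, hv, hv0⟩ : ∃ v ∈ N, v ≠ 0 := by
    by_contra h
    push Not at h
    exact hN ((LieSubmodule.eq_bot_iff N).2 h)
  obtain ⟨j, hj⟩ := Function.ne_iff.1 hv0
  have hall : ∀ i, Pi.single i (1 : ℂ) ∈ N := by
    intro i
    by_cases hij : i = j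
    · subst hij
      obtain ⟨k, hk⟩ : ∃ k : Fin 4, k ≠ i := exists_ne i
      have h1 := key v k i hk hv hj
      exact key _ i k (Ne.symm hk) h1 (by simp)
    · exact key v i j hij hv hj
  rw [eq_top_iff]
  intro w _
  have : w = ∑ i, w i • (Pi.single i (1 : ℂ) : Fin 4 → ℂ) := by
    ext k
    simp [Finset.sum_apply, Pi.single_apply]
  rw [this]
  exact N.sum_mem fun i _ => N.smul_mem _ (hall i)

instance sl4_trivialRadical : LieAlgebra.HasTrivialRadical ℂ sl4 := by
  apply LieAlgebra.hasTrivialRadical_of_isIrreducible_of_isFaithful ℂ sl4 (Fin 4 → ℂ)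
  intro x
  have h : LieModule.toEnd ℂ sl4 (Fin 4 → ℂ) x = Matrix.toLin' x.val := by
    apply LinearMap.ext
    intro v
    rw [LieModule.toEnd_apply_apply, lie_vec, Matrix.toLin'_apply]
  rw [h, Matrix.trace_toLin'_eq, trace_val]

instance sl4_killing : LieAlgebra.IsKilling ℂ sl4 := inferInstance

instance sl4_semisimple : LieAlgebra.IsSemisimple ℂ sl4 := inferInstance


end sl

/-- Q1 is false: `g = sl₄(ℂ)` is semisimple, the subalgebra `diagH` of diagonal matrices is a
Cartan subalgebra, and there is a finite-dimensional irreducible `g`-module `V` for which `Φ^V` is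
not injective; see `NotInjective`. -/
theorem result :
    LieAlgebra.IsSemisimple ℂ sl4 ∧ diagH.IsCartanSubalgebra ∧
      ∃ (V : Type) (_ : AddCommGroup V) (_ : Module ℂ V) (_ : LieRingModule sl4 V)
        (_ : LieModule ℂ sl4 V), NotInjective sl4 diagH V :=
  ⟨inferInstance, inferInstance,
    exists_killed diagH 4 finrank_diagH comm4 comm4_linearIndependent comm4_lie⟩

end

end Pool.Agent.Results.MP_4ef82d_al.PhiNotInjective
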